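import Pool.Agent.W205.K5.Stm0

/-!
Project K5, piece `k = 5`, `m = 3`.
-/

set_option autoImplicit false

namespace Pool.Agent.W279.K5

open Pool.Agent.W205.K5
open Finset

theorem loc5 (ρ : ℝ) (h0 : 0 < ρ) (h1 : ρ < 1) (h : ρ ^ 5 + (1 - ρ / 5) ^ 5 = 1) :
    0.913235 < ρ ∧ ρ < 0.913236 := by
  have hh : (3124 / 3125 : ℝ) * ρ ^ 4 + 1 / 125 * ρ ^ 3 - 2 / 25 * ρ ^ 2 + 2 / 5 * ρ - 1 = 0 := by
    have h2 : ρ * ((3124 / 3125 : ℝ) * ρ ^ 4 + 1 / 125 * ρ ^ 3 - 2 / 25 * ρ ^ 2 + 2 / 5 * ρ - 1)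
        = 0 := by
      linear_combination h
    exact (mul_eq_zero.1 h2).resolve_left h0.ne'
  constructor
  · by_contra hc
    have hc' : ρ ≤ 0.913235 := not_lt.1 hc
    have h4 : ρ ^ 4 ≤ 0.913235 ^ 4 := pow_le_pow_left₀ h0.le hc' 4
    have h3 : ρ ^ 3 ≤ 0.913235 ^ 3 := pow_le_pow_left₀ h0.le hc' 3
    have hq : 0 ≤ (0.913235 - ρ) * (2 / 5 - 2 / 25 * (0.913235 + ρ)) :=
      mul_nonneg (by linarith) (by linarith)
    norm_num at h4 h3 hq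
    nlinarith
  · by_contra hc
    have hc' : 0.913236 ≤ ρ := not_lt.1 hc
    have h4 : 0.913236 ^ 4 ≤ ρ ^ 4 := pow_le_pow_left₀ (by norm_num) hc' 4
    have h3 : 0.913236 ^ 3 ≤ ρ ^ 3 := pow_le_pow_left₀ (by norm_num) hc' 3
    have hq : 0 ≤ (ρ - 0.913236) * (2 / 5 - 2 / 25 * (0.913236 + ρ)) :=
      mul_nonneg (by linarith) (by linarith)
    norm_num at h4 h3 hq
    nlinarith

theorem Th5 (ρ : ℝ) (w : ℕ → ℝ) : Th 5 ρ (fun j => w (5 - j)) =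
    ρ ^ 5 * w 0 + 5 * ρ ^ 4 * (1 - ρ) * w 1 + 10 * ρ ^ 3 * (1 - ρ) ^ 2 * w 2 +
      10 * ρ ^ 2 * (1 - ρ) ^ 3 * w 3 + 5 * ρ * (1 - ρ) ^ 4 * w 4 + (1 - ρ) ^ 5 * w 5 := by
  unfold Th
  simp [Finset.sum_range_succ, Nat.choose]
  ring

theorem coef5 (ρ : ℝ) (h1 : 0.913235 < ρ) (h2 : ρ < 0.913236) :
    0.635203 ≤ ρ ^ 5 ∧ 5 * ρ ^ 4 * (1 - ρ) ≤ 0.30175 ∧ 0.3 ≤ 5 * ρ ^ 4 * (1 - ρ) ∧
      10 * ρ ^ 3 * (1 - ρ) ^ 2 ≤ 0.0573375 ∧ 0.05 ≤ 10 * ρ ^ 3 * (1 - ρ) ^ 2 ∧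
      10 * ρ ^ 2 * (1 - ρ) ^ 3 ≤ 0.0054476 ∧ 0.005 ≤ 10 * ρ ^ 2 * (1 - ρ) ^ 3 ∧
      5 * ρ * (1 - ρ) ^ 4 ≤ 0.0003 ∧ 0 ≤ 5 * ρ * (1 - ρ) ^ 4 ∧ 0 ≤ (1 - ρ) ^ 5 := by
  have hr0 : 0 ≤ ρ := by linarith
  have t1 : (0.086764 : ℝ) ≤ 1 - ρ := by linarith
  have t2 : 1 - ρ ≤ 0.086765 := by linarith
  have t0 : 0 ≤ 1 - ρ := by linarith
  have lo : (0 : ℝ) ≤ 0.913235 := by norm_num
  have lo' : (0 : ℝ) ≤ 0.086764 := by norm_num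
  have p2 := pow_le_pow_left₀ hr0 h2.le 2
  have p3 := pow_le_pow_left₀ hr0 h2.le 3
  have p4 := pow_le_pow_left₀ hr0 h2.le 4
  have q2 := pow_le_pow_left₀ lo h1.le 2
  have q3 := pow_le_pow_left₀ lo h1.le 3
  have q4 := pow_le_pow_left₀ lo h1.le 4
  have q5 := pow_le_pow_left₀ lo h1.le 5
  have u2 := pow_le_pow_left₀ t0 t2 2
  have u3 := pow_le_pow_left₀ t0 t2 3
  have u4 := pow_le_pow_left₀ t0 t2 4
  have v2 := pow_le_pow_left₀ lo' t1 2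
  have v3 := pow_le_pow_left₀ lo' t1 3
  refine ⟨?_, ?_, ?_, ?_, ?_, ?_, ?_, ?_, ?_, ?_⟩
  · refine le_trans ?_ q5
    norm_num
  · have := mul_le_mul p4 t2 t0 (by positivity)
    rw [mul_assoc]
    refine le_trans (mul_le_mul_of_nonneg_left this (by norm_num)) ?_
    norm_num
  · have := mul_le_mul q4 t1 lo' (by positivity)
    rw [mul_assoc]
    refine le_trans ?_ (mul_le_mul_of_nonneg_left this (by norm_num))
    norm_num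
  · have := mul_le_mul p3 u2 (by positivity) (by positivity)
    rw [mul_assoc]
    refine le_trans (mul_le_mul_of_nonneg_left this (by norm_num)) ?_
    norm_num
  · have := mul_le_mul q3 v2 (by positivity) (by positivity)
    rw [mul_assoc]
    refine le_trans ?_ (mul_le_mul_of_nonneg_left this (by norm_num))
    norm_num
  · have := mul_le_mul p2 u3 (by positivity) (by positivity)
    rw [mul_assoc]
    refine le_trans (mul_le_mul_of_nonneg_left this (by norm_num)) ?_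
    norm_num
  · have := mul_le_mul q2 v3 (by positivity) (by positivity)
    rw [mul_assoc]
    refine le_trans ?_ (mul_le_mul_of_nonneg_left this (by norm_num))
    norm_num
  · have := mul_le_mul h2.le u4 (by positivity) (by positivity)
    rw [mul_assoc]
    refine le_trans (mul_le_mul_of_nonneg_left this (by norm_num)) ?_
    norm_num
  · positivity
  · positivity

theorem arith53 (c0 c1 c2 c3 c4 c5 w0 w1 w2 w3 w4 g0 g1 g2 g3 g4 : ℝ)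
    (h0 : 0.635203 ≤ c0) (h1 : c1 ≤ 0.30175) (h1' : 0.3 ≤ c1) (h2 : c2 ≤ 0.0573375)
    (h2' : 0.05 ≤ c2) (h3 : c3 ≤ 0.0054476) (h3' : 0.005 ≤ c3) (h4 : c4 ≤ 0.0003)
    (h4' : 0 ≤ c4)
    (hg : 8 / 9 ≤ g0) (hg' : g0 ≤ 81 / 64)
    (a4 : g4 ≤ g3 + w4) (a3 : g3 ≤ g2 + w3) (a2 : g2 ≤ g1 + w2) (a1 : g1 ≤ g0 + w1)
    (j4 : 4 ≤ g4) (j3 : 3 ≤ g3)
    (l2 : 3 / 2 ≤ w2 + 5 / 12 * g2) (l1 : 9 / 17 ≤ w1 + 13 / 204 * g1)
    (hch : 8 / 27 * (81 / 64 - g0) + 81 / 256 * (g0 - 8 / 9) ≤ w0 * (81 / 64 - 8 / 9)) :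
    c1 + c2 + c3 + c4 + c5 ≤ c0 * w0 + c1 * w1 + c2 * w2 + c3 * w3 + c4 * w4 + c5 * 1 := by
  have e1 : 0 ≤ c4 * (w4 - (4 - g2 - w3)) := mul_nonneg h4' (by linarith)
  have e2 : 0 ≤ (c3 - c4) * (w3 - (3 - g2)) := mul_nonneg (by linarith) (by linarith)
  have e3 : 0 ≤ c3 * (g1 + w2 - g2) := mul_nonneg (by linarith) (by linarith)
  have e4 : 0 ≤ (c2 - c3) * (w2 - (18 / 17 - 5 / 17 * g1)) :=
    mul_nonneg (by linarith) (by linarith)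
  have e5 : 0 ≤ (c3 + 5 / 17 * (c2 - c3)) * (g0 + w1 - g1) :=
    mul_nonneg (by linarith) (by linarith)
  have e6 : 0 ≤ (c1 - (c3 + 5 / 17 * (c2 - c3))) * (w1 - (108 - 13 * g0) / 217) :=
    mul_nonneg (by linarith) (by linarith)
  have e7 : 0 ≤ c0 * (w0 * (81 / 64 - 8 / 9) -
      (8 / 27 * (81 / 64 - g0) + 81 / 256 * (g0 - 8 / 9))) :=
    mul_nonneg (by linarith) (by linarith)
  have f1 : 0 ≤ 8 / 27 * c0 - 5 / 9 * c1 - 1 / 3 * c2 := by linarith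
  have f2 : 0 ≤ 81 / 256 * c0 - 37 / 64 * c1 - 7 / 16 * c2 - 1 / 4 * c3 := by linarith
  have k1 : 0 ≤ (81 / 64 - g0) * (8 / 27 * c0 - 5 / 9 * c1 - 1 / 3 * c2) :=
    mul_nonneg (by linarith) f1
  have k2 : 0 ≤ (g0 - 8 / 9) * (81 / 256 * c0 - 37 / 64 * c1 - 7 / 16 * c2 - 1 / 4 * c3) :=
    mul_nonneg (by linarith) f2
  nlinarith [e1, e2, e3, e4, e5, e6, e7, k1, k2]

theorem piece53 (hL : S_LINE) (hC : S_CHORD) : PIECE 5 3 := by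
  intro w g hS hg1 hg2 ρ hρ0 hρ1 hρ
  have hρ' : ρ ^ 5 + (1 - ρ / 5) ^ 5 = 1 := by exact_mod_cast hρ
  obtain ⟨r1, r2⟩ := loc5 ρ hρ0 hρ1 hρ'
  obtain ⟨c0, c1, c1', c2, c2', c3, c3', c4, c4', c5⟩ := coef5 ρ r1 r2
  have K3 : KK 3 = 8 / 9 := by
    unfold KK; norm_num
  have K4 : KK (3 + 1) = 81 / 64 := by
    unfold KK; norm_num
  have l2 : 3 / 2 ≤ w 2 + 5 / 12 * g 2 := by
    refine hL 5 w g hS 2 (5 / 12) (3 / 2) (by norm_num) (by norm_num) (by norm_num)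
      (by norm_num) ?_
    intro n hn1 hn2
    interval_cases n <;> norm_num
  have l1 : 9 / 17 ≤ w 1 + 13 / 204 * g 1 := by
    refine hL 5 w g hS 1 (13 / 204) (9 / 17) (by norm_num) (by norm_num) (by norm_num)
      (by norm_num) ?_
    intro n hn1 hn2
    interval_cases n <;> norm_num
  have hch := hC 5 w g (by norm_num) hS 3 (by norm_num) (by norm_num) hg1 hg2
  rw [K3, K4] at hch
  rw [K3] at hg1
  rw [K4] at hg2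
  have hch' : 8 / 27 * (81 / 64 - g 0) + 81 / 256 * (g 0 - 8 / 9) ≤
      w 0 * (81 / 64 - 8 / 9) := by
    refine le_trans (le_of_eq ?_) hch
    norm_num
  have a4 := hS.add 3 (by norm_num)
  have a3 := hS.add 2 (by norm_num)
  have a2 := hS.add 1 (by norm_num)
  have a1 := hS.add 0 (by norm_num)
  have j4 := hS.jen 4 (by norm_num)
  have j3 := hS.jen 3 (by norm_num)
  norm_num at a4 a3 a2 a1 j4 j3
  have hfin := arith53 (ρ ^ 5) (5 * ρ ^ 4 * (1 - ρ)) (10 * ρ ^ 3 * (1 - ρ) ^ 2)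
    (10 * ρ ^ 2 * (1 - ρ) ^ 3) (5 * ρ * (1 - ρ) ^ 4) ((1 - ρ) ^ 5) (w 0) (w 1) (w 2) (w 3) (w 4)
    (g 0) (g 1) (g 2) (g 3) (g 4) c0 c1 c1' c2 c2' c3 c3' c4 c4' hg1 hg2 a4 a3 a2 a1 j4 j3
    l2 l1 hch'
  rw [Th5, hS.wk]
  refine le_trans (le_of_eq ?_) hfin
  ring

end Pool.Agent.W279.K5
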